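import Pool.Agent.TH882.R9

/-!
# Simultaneous prime values of quadratic polynomials at exact patterns of consecutive primes

For almost all vectors `(c_1, ..., c_r)` of positive integers `c_j ≤ κ x ^ 2` without local obstruction, the
quadratic polynomials `a_j n ^ 2 + b_j n + c_j` are simultaneously prime for at least `x / (log x) ^ D` integers `n ≤ x`
for which moreover the `m` numbers `n + h`, `h ∈ H`, are CONSECUTIVE primes; the pattern `H` is a subset of any given
set `A` with at least `K(m)` elements, and `K` does not depend on the number and the coefficients of the polynomials.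

The theorem is the case of quadratic polynomials of a theorem of the starting files (`Pool.Agent.TH882.R9`).
-/

set_option autoImplicit false

open Finset Filter Topology

namespace Pool.Agent.Results.MP_8be758_nt.ConsecutivePrimePatterns

/-- No local obstruction: for every prime `l` there is an integer `n` such that `l` divides no `n + u`, `u ∈ A`, and no
`a_j n ^ 2 + b_j n + c_j`. -/
def LocallyPossible {r : ℕ} (A : Finset ℕ) (a b : Fin r → ℤ) (c : Fin r → ℕ) : Prop :=
  ∀ l : ℕ, l.Prime → ∃ n : ℤ, (∀ u ∈ A, ¬ (l : ℤ) ∣ n + u) ∧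
    ∀ j, ¬ (l : ℤ) ∣ a j * n ^ 2 + b j * n + c j

/-- All `n + h`, `h ∈ H`, are prime, and no other integer between `n + min H` and `n + max H` is prime. -/
def Consecutive (H : Finset ℕ) (n : ℕ) : Prop := (∀ h ∈ H, (n + h).Prime) ∧
  ∀ w, (∃ h ∈ H, h ≤ w) → (∃ h ∈ H, w ≤ h) → (n + w).Prime → w ∈ H

/-- The number of the integers `1 ≤ n ≤ x` for which the `n + h`, `h ∈ H`, are consecutive primes and all
`a_j n ^ 2 + b_j n + c_j` are (positive and) prime. -/
noncomputable def count {r : ℕ} (H : Finset ℕ) (a b : Fin r → ℤ) (c : Fin r → ℕ) (x : ℕ) : ℕ :=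
  {n : ℕ | (1 ≤ n ∧ n ≤ x) ∧ Consecutive H n ∧
    ∀ j, (a j * (n : ℤ) ^ 2 + b j * n + c j).toNat.Prime}.ncard

/-- The vectors `c` of integers `1 ≤ c_j ≤ κ x ^ 2` without local obstruction, but such that for no subset `H` of `A`
with `m` elements the count is at least `x / (log x) ^ D`. -/
def exceptions {r : ℕ} (A : Finset ℕ) (a b : Fin r → ℤ) (m D κ x : ℕ) : Set (Fin r → ℕ) :=
  {c : Fin r → ℕ | (∀ j, 1 ≤ c j ∧ c j ≤ κ * x ^ 2) ∧ LocallyPossible A a b c ∧
    ¬ ∃ H ⊆ A, H.card = m ∧ (x : ℝ) / Real.log x ^ D ≤ (count H a b c x : ℝ)}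

/-- **Prime values of quadratic polynomials at patterns of consecutive primes.** For every `m` there is `K` such that for
all `a_j > 0`, `b_j` (`j < r`) and every set `A` of at least `K` positive integers there is `D` with the
following property, for every `κ`. For all vectors `c` of integers `1 ≤ c_j ≤ κ x ^ 2` without local obstruction, with at
most `o(x ^ (2 r))` exceptions, there is a subset `H` of `A` with `m` elements such that for at least `x / (log x) ^ D`
integers `1 ≤ n ≤ x` the `m` numbers `n + h`, `h ∈ H`, are consecutive primes and all `a_j n ^ 2 + b_j n + c_j` are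
primes. -/
theorem result (m : ℕ) : ∃ K : ℕ, ∀ (r : ℕ) (a b : Fin r → ℤ), (∀ j, 0 < a j) →
    ∀ A : Finset ℕ, (∀ u ∈ A, 1 ≤ u) → K ≤ A.card → ∃ D : ℕ, ∀ κ : ℕ,
      Tendsto (fun x : ℕ => ((exceptions A a b m D κ x).ncard : ℝ) / ((x : ℝ) ^ 2) ^ r) atTop (𝓝 0) := by
  classical
  obtain ⟨K, hK, hfin⟩ := Pool.Agent.TH882.RQ.finQ m
  refine ⟨4 * (m + 1) * K, ?_⟩
  intro r a b ha A hA1 hA
  obtain ⟨U, hUA, hUc⟩ := exists_subset_card_eq hA
  set g : Fin r → Polynomial ℤ := fun j => Polynomial.C (a j) * Polynomial.X ^ 2 +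
    Polynomial.C (b j) * Polynomial.X + Polynomial.C 0 with hg
  have ha0 : ∀ j, a j ≠ 0 := fun j => (ha j).ne'
  have hgd : ∀ j, (g j).natDegree = 2 := fun j => by
    rw [hg]
    exact Polynomial.natDegree_quadratic (ha0 j)
  have hge : ∀ j, ∀ n : ℤ, (g j).eval n = a j * n ^ 2 + b j * n := by
    intro j n
    rw [hg]
    simp only [Polynomial.eval_add, Polynomial.eval_mul, Polynomial.eval_C, Polynomial.eval_pow,
      Polynomial.eval_X]
    ring
  obtain ⟨D, h⟩ := hfin g (fun j => by rw [hgd j]; norm_num)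
    (fun j => by
      rw [hg]
      simp only
      rw [Polynomial.leadingCoeff_quadratic (ha0 j)]
      exact ha j) U hUc (fun u hu => hA1 u (hUA hu))
  refine ⟨D, fun κ => ?_⟩
  refine squeeze_zero (fun x => by positivity) (fun x => ?_) (h κ)
  have e0 : ∏ j, (x : ℝ) ^ (g j).natDegree = ((x : ℝ) ^ 2) ^ r := by
    rw [prod_congr rfl fun j _ => by rw [hgd j]]
    rw [prod_const, card_univ, Fintype.card_fin]
  rw [e0]
  apply div_le_div_of_nonneg_right _ (by positivity)
  apply Nat.cast_le.2
  rw [← Set.ncard_coe_finset]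
  apply Set.ncard_le_ncard _ (finite_toSet _)
  intro c hc
  unfold exceptions at hc
  rw [Set.mem_setOf_eq] at hc
  obtain ⟨hc1, hc2, hc3⟩ := hc
  unfold Pool.Agent.TH882.RQ.ExQ
  rw [mem_coe, mem_filter, Fintype.mem_piFinset]
  refine ⟨?_, ?_, ?_⟩
  · intro j
    rw [mem_Icc, hgd j]
    exact hc1 j
  · intro l hl
    obtain ⟨n, hn1, hn2⟩ := hc2 l hl
    refine ⟨n, fun u hu => hn1 u (hUA hu), fun j => ?_⟩
    have e1 : (c j : ℤ) + 1 * (g j).eval n = a j * n ^ 2 + b j * n + c j := by
      rw [hge j n]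
      ring
    simp only
    rw [e1]
    exact hn2 j
  · rintro ⟨H, hH1, hH2, hH3⟩
    apply hc3
    refine ⟨H, hH1.trans hUA, hH2, hH3.trans ?_⟩
    apply Nat.cast_le.2
    unfold count
    rw [← Set.ncard_coe_finset]
    apply Set.ncard_le_ncard
    · intro n hn
      unfold Pool.Agent.TH882.RQ.CQ at hn
      rw [mem_coe, mem_filter, mem_Ico] at hn
      obtain ⟨⟨h1, h2⟩, h3, h4⟩ := hn
      rw [Set.mem_setOf_eq]
      refine ⟨⟨h1, h2.le⟩, h3, fun j => ?_⟩
      have h5 := h4 j
      have e1 : (c j : ℤ) + 1 * (g j).eval (n : ℤ) = a j * (n : ℤ) ^ 2 + b j * n + c j := by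
        rw [hge j n]
        ring
      simp only at h5
      rw [e1] at h5
      exact h5
    · exact (Set.finite_Icc 1 x).subset fun n hn => hn.1

end Pool.Agent.Results.MP_8be758_nt.ConsecutivePrimePatterns
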