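import Pool.Agent.X30.Quad5

set_option autoImplicit false

/-!
# Conjecture F fails to be uniform at any two scales `(log A)^B`, whatever the constant

Let `P_A(n)` be the number of `x` in `{0, ..., n}` with `x² + x + A` prime and `L_A(n) = 2 ∫_0^n dx / log (x² + x + A)`.
Conjecture F predicts `P_A(n) / L_A(n) → C(Δ)` as `n → ∞`. The question treated here is how small `n` may be in terms of
`A`, and it is treated without the constant: for different exponents `B_1, ..., B_k > 1` and real `c_i` with sum zero the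
combination `∑ c_i P_A(n_i) / L_A(n_i)`, `n_i = (log A)^(B_i)`, would tend to `0` as `A → ∞` if the prediction held
uniformly at these `n_i` with ANY constant depending on `A` (it cancels). But it is at least a constant `δ > 0` for at
least `X exp (-(log X)^ε)` odd `A ≤ X` (and, with `-c`, at most `-δ` for as many). The same for all the families
`α x² + β x + A` with `α ≥ 1`, `β ≥ 0`.

Method: a Maier matrix with the rows `A ≡ r (mod W)`, `W` the product of the primes `p` in
`((log X)^a, (log X)^b]` (without exceptional ones), `b` close to `a`, and the columns `α x² + β x`; the residue `r` is so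
chosen that the discriminant `β² - 4 α r` is divisible by `W`, so that `4 α (α x² + β x + r) ≡ (2 α x + β)²` and the
value is prime to `W` if and only if `2 α x + β` is; then truncated inclusion-exclusion for the linear form
`2 α x + β`, whose error has a sign depending on the scale. Friedlander and Granville (Limitations to the
equi-distribution of primes IV, 1991) have the failure of the prediction at one scale for some polynomials, relative to
the predicted constant.
-/

namespace Pool.Agent.Results.MP_8be758_nt.ContrastsBetweenScales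

/-- The number of `x ∈ {0, ..., n}` for which `α x ^ 2 + β x + A` is prime (`P_A(n)` for `α = β = 1`). -/
def P (α β A n : ℕ) : ℕ := ((Finset.range (n + 1)).filter (fun x => (α * x ^ 2 + β * x + A).Prime)).card

/-- The comparison integral from `0` to `y` (`L_A(y)` for `α = β = 1`). -/
noncomputable def L (α β A : ℕ) (y : ℝ) : ℝ :=
  2 * ∫ x in (0 : ℝ)..y, 1 / Real.log (α * x ^ 2 + β * x + A)

/-- The quotient `P_A(n) / L_A(n)` at `n = (log A)^B`. -/
noncomputable def Q (α β A : ℕ) (B : ℝ) : ℝ :=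
  (P α β A ⌊(Real.log A) ^ B⌋₊ : ℝ) / L α β A ((Real.log A) ^ B)

theorem result (k : ℕ) (B c : Fin k → ℝ) (hB : ∀ i, 1 < B i) (hinj : Function.Injective B) (hc : c ≠ 0)
    (hsum : ∑ i, c i = 0) (ε : ℝ) (hε : 0 < ε) :
    (∃ δ : ℝ, 0 < δ ∧ ∃ X₀ : ℝ, ∀ X : ℝ, X₀ ≤ X →
      X * Real.exp (-(Real.log X) ^ ε) ≤
        (((Finset.Icc 3 ⌊X⌋₊).filter (fun A : ℕ => Odd A ∧ δ ≤ ∑ i, c i * Q 1 1 A (B i))).card : ℝ)) ∧
    ∀ α β : ℕ, 1 ≤ α → ∃ δ : ℝ, 0 < δ ∧ ∃ X₀ : ℝ, ∀ X : ℝ, X₀ ≤ X →
      X * Real.exp (-(Real.log X) ^ ε) ≤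
        (((Finset.Icc 3 ⌊X⌋₊).filter (fun A : ℕ => δ ≤ ∑ i, c i * Q α β A (B i))).card : ℝ) := by
  have hc' : ∃ i ∈ (Finset.univ : Finset (Fin k)), c i ≠ 0 := by
    by_contra h
    push Not at h
    exact hc (funext fun i => h i (Finset.mem_univ i))
  have key : ∀ α β : ℕ, 1 ≤ α → ∃ δ : ℝ, 0 < δ ∧ ∃ X₀ : ℝ, ∀ X : ℝ, X₀ ≤ X →
      X * Real.exp (-(Real.log X) ^ ε) ≤
        (((Finset.Icc 3 ⌊X⌋₊).filter (fun A : ℕ => δ ≤ ∑ i, c i * Q α β A (B i))).card : ℝ) := by
    intro α β hα
    obtain ⟨δ, hδ, X₀, h⟩ := Pool.Agent.X30.QW.conjF α β hα Finset.univ B c (fun i _ => hB i)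
      (fun i _ j _ hij h => hij (hinj h)) hc' hsum ε hε
    refine ⟨δ, hδ, X₀, fun X hX => (h X hX).trans ?_⟩
    norm_cast
    apply Finset.card_le_card
    intro A hA
    rw [Finset.mem_filter, Finset.mem_Icc] at hA ⊢
    exact ⟨⟨hA.2.1, hA.1.2⟩, hA.2.2⟩
  refine ⟨?_, key⟩
  obtain ⟨δ, hδ, X₀, h⟩ := key 1 1 le_rfl
  refine ⟨δ, hδ, X₀, fun X hX => (h X hX).trans ?_⟩
  norm_cast
  apply Finset.card_le_card
  intro A hA
  rw [Finset.mem_filter, Finset.mem_Icc] at hA ⊢
  refine ⟨hA.1, ?_, hA.2⟩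
  by_contra hodd
  rw [Nat.not_odd_iff_even] at hodd
  have hP : ∀ n : ℕ, P 1 1 A n = 0 := by
    intro n
    unfold P
    rw [Finset.card_eq_zero, Finset.filter_eq_empty_iff]
    intro x _ hp
    have h2 : 2 ∣ 1 * x ^ 2 + 1 * x + A := by
      have h3 : Even (x * (x + 1)) := Nat.even_mul_succ_self x
      have h4 : 1 * x ^ 2 + 1 * x + A = x * (x + 1) + A := by ring
      rw [h4]
      exact (h3.add hodd).two_dvd
    have h5 := (Nat.prime_dvd_prime_iff_eq Nat.prime_two hp).1 h2
    have h6 : 3 ≤ A := hA.1.1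
    have : A ≤ 1 * x ^ 2 + 1 * x + A := Nat.le_add_left _ _
    omega
  have h0 : ∑ i, c i * Q 1 1 A (B i) = 0 := by
    apply Finset.sum_eq_zero
    intro i _
    unfold Q
    rw [hP]
    simp
  rw [h0] at hA
  linarith [hA.2]

end Pool.Agent.Results.MP_8be758_nt.ContrastsBetweenScales
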