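import Pool.Agent.X32.Uni.Eul

/-!
# Exact sets of pairs `(h, A)` for which `F_A(n + h) = (n + h)² + (n + h) + A` is almost prime, in short intervals

Let `S` be a finite set of pairs `(h, A)` such that for every prime `p` there is an `x` with `p ∤ F_A(x + h)` for all
the pairs of `S` (this is necessary; it implies that the `A` are odd), and let `H`, `L` and `ε > 0` be given. There are
`C`, `t` and `κ, K > 0` such that for all large `X` and EVERY interval `(U, W]` with `W ≤ X`, `W - U ≥ X ^ ε` the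
number of the integers `n` of `(U, W]` for which
* `F_A(n + h)` is a product of at most `2 t` primes `> X ^ (1 / t)` for all `(h, A) ∈ S`,
* `F_A(n + h)` has a prime factor `≤ C` for ALL other pairs with `|h| ≤ H`, `|A| ≤ L`
is between `κ (W - U) V` and `K (W - U) V`. Here `V = ∏_{p ≤ X} (1 - ω(p) / p)`, `ω(p)` the number of the zeros of
`∏ F_A(x + h)`, `(h, A) ∈ S`, modulo `p`, so this is the conjectured order of magnitude for primes. For every `s`,
`δ > 0` and every colouring with `r` colours all but `δ (W - U) V` of these `n` are covered by pairwise disjoint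
monochromatic progressions of `s` such `n` with differences `≤ (log X) ^ c`.

For example, for `S = {(0, A)}`, `A` odd: `n² + n + A` is almost prime, but no other `m² + m + B` with `m` near `n` and
`|B| ≤ L`; or `S = {(0, A), (1, A), ..., (k, A)}` for those `A` (like `A = 41`) and `k` for which this is not excluded
by a small prime: `k + 1` consecutive values of `F_A`, and nothing else.
-/

set_option autoImplicit false

namespace Pool.Agent.Results.MP_8be758_nt.ExactSetsOfA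

open Finset

variable {k : ℕ}

/-- the value `F_A(x + h)` for the pair `z = (h, A)` -/
def F (z : ℤ × ℤ) (x : ℤ) : ℤ := (x + z.1) ^ 2 + (x + z.1) + z.2

/-- `|v| > 1`, and `|v|` is a product of at most `r` primes, all of them larger than `y` -/
def Almost (r : ℕ) (y : ℝ) (v : ℤ) : Prop :=
  1 < |v| ∧ v.natAbs.primeFactorsList.length ≤ r ∧ ∀ q : ℕ, q.Prime → (q : ℤ) ∣ v → y < q

/-- `ω(p)`: the number of the zeros of the product modulo `p` -/
def omega (S : Fin k → ℤ × ℤ) (p : ℕ) : ℕ := ((range p).filter (fun x : ℕ => (p : ℤ) ∣ ∏ l, F (S l) x)).card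

/-- the product of `1 - ω(p) / p` over the primes `p ≤ X` -/
noncomputable def V (S : Fin k → ℤ × ℤ) (X : ℕ) : ℝ :=
  ∏ p ∈ (Icc 1 X).filter Nat.Prime, (1 - (omega S p : ℝ) / p)

open Classical in
/-- the integers `n` of `(U, W]` described above -/
noncomputable def Good (S : Fin k → ℤ × ℤ) (H L C t X U W : ℕ) : Finset ℕ :=
  (Ioc U W).filter (fun n : ℕ =>
    (∀ l, Almost (2 * t) ((X : ℝ) ^ (1 / (t : ℝ))) (F (S l) n)) ∧
    ∀ h a : ℤ, |h| ≤ H → |a| ≤ L → (∀ l, S l ≠ (h, a)) → ∃ q : ℕ, q.Prime ∧ q ≤ C ∧ (q : ℤ) ∣ F (h, a) n)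

/-- the terms `a, a + b, ..., a + (s - 1) b` of the progression `z = (a, b)` -/
def terms (s : ℕ) (z : ℕ × ℕ) : Finset ℕ := (range s).image (fun i => z.1 + i * z.2)

theorem result (hk : 0 < k) (S : Fin k → ℤ × ℤ) (hS : ∀ p : ℕ, p.Prime → ∃ x : ℤ, ∀ l, ¬ (p : ℤ) ∣ F (S l) x)
    (H L : ℕ) (ε : ℝ) (hε : 0 < ε) :
    ∃ C t : ℕ, 1 ≤ t ∧ ∃ κ K : ℝ, 0 < κ ∧ 0 < K ∧ ∀ (s r : ℕ) (δ : ℝ), 1 ≤ s → 0 < δ → ∃ c X₀ : ℕ, ∀ X : ℕ, X₀ ≤ X →
      κ / Real.log X ^ (2 * k) ≤ V S X ∧ ∀ U W : ℕ, W ≤ X → (X : ℝ) ^ ε ≤ (W : ℝ) - U →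
        κ * ((W : ℝ) - U) * V S X ≤ ((Good S H L C t X U W).card : ℝ) ∧
        ((Good S H L C t X U W).card : ℝ) ≤ K * ((W : ℝ) - U) * V S X ∧
        ∀ χ : ℕ → Fin r, ∃ P : Finset (ℕ × ℕ),
          (∀ z ∈ P, 1 ≤ z.2 ∧ (z.2 : ℝ) ≤ Real.log X ^ c ∧
            ∀ l < s, z.1 + l * z.2 ∈ Good S H L C t X U W ∧ χ (z.1 + l * z.2) = χ z.1) ∧
          (P : Set (ℕ × ℕ)).PairwiseDisjoint (terms s) ∧
          (((Good S H L C t X U W \ P.biUnion (terms s)).card : ℕ) : ℝ) ≤ δ * ((W : ℝ) - U) * V S X :=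
  Pool.Agent.X32.Uni.eulS hk S hS H L ε hε

end Pool.Agent.Results.MP_8be758_nt.ExactSetsOfA
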