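import Pool.Agent.TH882.K4
import Pool.Agent.TH882.I4

/-!
# Simultaneous prime values of quadratic polynomials at isolated primes

For all vectors `(c_1, ..., c_r)` of positive integers `c_j ≤ K x ^ 2` without local obstruction, except a proportion at
most `κ`, the quadratic polynomials `a_j n ^ 2 + b_j n + c_j` are simultaneously prime for at least
`δ x / (log x) ^ (r + 1)` primes `n ≤ x` which are isolated: no other prime is at distance at most `Λ log n` from `n`,
where `Λ` is arbitrarily large.

The theorem is assembled from the starting files: isolated primes are dense in every reduced residue class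
(`Pool.Agent.TH882.I4`), and the theorem on systems of polynomials with varying constant terms at the elements of a set
of primes which is dense in most classes (`Pool.Agent.TH882.K4`).
-/

set_option autoImplicit false

open Finset Filter Topology

namespace Pool.Agent.Results.MP_8be758_nt.SystemsAtIsolatedPrimes

/-- `n` is a prime, and no other prime is at distance at most `R` from `n`. -/
def IsolatedPrime (R : ℝ) (n : ℕ) : Prop := n.Prime ∧ ∀ q : ℕ, q.Prime → |(q : ℝ) - n| ≤ R → q = n

/-- For every prime `l` there is an integer `n` such that `l` divides none of the numbers `n` and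
`a_j * n ^ 2 + b_j * n + c_j`. -/
def Admissible {r : ℕ} (a b : Fin r → ℤ) (c : Fin r → ℕ) : Prop :=
  ∀ l : ℕ, l.Prime → ∃ n : ℤ, ¬ (l : ℤ) ∣ n ∧ ∀ j, ¬ (l : ℤ) ∣ a j * n ^ 2 + b j * n + c j

open Classical in
/-- The primes `n ≤ x` without another prime at distance at most `Λ log n` for which all `a_j * n ^ 2 + b_j * n + c_j` are
(positive) primes. -/
noncomputable def arguments {r : ℕ} (a b : Fin r → ℤ) (Λ : ℝ) (c : Fin r → ℕ) (x : ℕ) :
    Finset ℕ :=
  (Icc 1 x).filter (fun n => IsolatedPrime (Λ * Real.log n) n ∧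
    ∀ j, (a j * (n : ℤ) ^ 2 + b j * n + c j).toNat.Prime)

open Classical in
/-- The vectors without local obstruction and with few arguments. -/
noncomputable def exceptions {r : ℕ} (a b : Fin r → ℤ) (Λ δ : ℝ) (K x : ℕ) :
    Finset (Fin r → ℕ) :=
  (Fintype.piFinset (fun _ : Fin r => Icc 1 (K * x ^ 2))).filter (fun c => Admissible a b c ∧
    ((arguments a b Λ c x).card : ℝ) < δ * (x / Real.log x ^ (r + 1)))

open Classical in
/-- isolated primes are dense in all reduced classes -/
lemma iso_most (Λ : ℝ) (hΛ : 0 < Λ) : Pool.Agent.TH882.JS.MostDense (Pool.Agent.TH882.IS.IP Λ) := by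
  refine ⟨?_, fun η hη => ?_⟩
  · intro X b n hn
    unfold Pool.Agent.TH882.IS.IP at hn
    rw [mem_filter] at hn ⊢
    exact ⟨hn.1, hn.2.1⟩
  · obtain ⟨c, hc, X₀, h⟩ := Pool.Agent.TH882.IS.isoD Λ hΛ
    refine ⟨c, hc, X₀, fun X hX => ?_⟩
    have h0 : (Pool.Agent.TH882.JS.Rd X).filter (fun b =>
        ((Pool.Agent.TH882.IS.IP Λ X b).card : ℝ) <
          c * (X / (Nat.totient (Pool.Agent.H361R2.PP.Wm X) * Real.log X))) = ∅ := by
      rw [filter_eq_empty_iff]
      intro b hb
      unfold Pool.Agent.TH882.JS.Rd at hb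
      rw [mem_filter, mem_range] at hb
      exact not_lt.2 (h X hX b hb.1 hb.2)
    rw [h0, card_empty, Nat.cast_zero]
    positivity

/-- **Systems of quadratic polynomials at isolated primes.** Let `a_j > 0`, `b_j` be integers (`j < r`), `K` a natural
number, `Λ > 0` and `κ > 0`. There are `δ > 0` and `x₀` such that for all `x ≥ x₀` and all but at most `κ x ^ (2 r)` of
the vectors `c` of positive integers `c_j ≤ K x ^ 2` without local obstruction there are at least
`δ x / (log x) ^ (r + 1)` primes `n ≤ x` without another prime at distance at most `Λ log n` for which all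
`a_j n ^ 2 + b_j n + c_j` are primes. -/
theorem result (r : ℕ) (a b : Fin r → ℤ) (ha : ∀ j, 0 < a j) (K : ℕ) (Λ κ : ℝ) (hΛ : 0 < Λ)
    (hκ : 0 < κ) : ∃ δ : ℝ, 0 < δ ∧ ∃ x₀ : ℕ, ∀ x : ℕ, x₀ ≤ x →
      ((exceptions a b Λ δ K x).card : ℝ) ≤ κ * ((x : ℝ) ^ 2) ^ r := by
  classical
  set g : Fin r → Polynomial ℤ := fun j => Polynomial.C (a j) * Polynomial.X ^ 2 +
    Polynomial.C (b j) * Polynomial.X + Polynomial.C 0 with hg
  have ha0 : ∀ j, a j ≠ 0 := fun j => (ha j).ne'
  have hgd : ∀ j, (g j).natDegree = 2 := fun j => by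
    rw [hg]
    exact Polynomial.natDegree_quadratic (ha0 j)
  have hge : ∀ j, ∀ n : ℤ, (g j).eval n = a j * n ^ 2 + b j * n := by
    intro j n
    rw [hg]
    simp only [Polynomial.eval_add, Polynomial.eval_mul, Polynomial.eval_C, Polynomial.eval_pow,
      Polynomial.eval_X]
    ring
  obtain ⟨δ, hδ, x₀, h⟩ := Pool.Agent.TH882.KS.sys_most g (fun j => by rw [hgd j]; norm_num)
    (fun j => by
      rw [hg]
      simp only
      rw [Polynomial.leadingCoeff_quadratic (ha0 j)]
      exact ha j) (Pool.Agent.TH882.IS.IP (2 * Λ)) (iso_most (2 * Λ) (by positivity)) K κ hκ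
  refine ⟨δ, hδ, max x₀ 100, fun x hx => ?_⟩
  have hx0 : x₀ ≤ x := by omega
  have hx100 : 100 ≤ x := by omega
  have h1 := h x hx0
  have e0 : ∏ j, (x : ℝ) ^ (g j).natDegree = ((x : ℝ) ^ 2) ^ r := by
    rw [prod_congr rfl fun j _ => by rw [hgd j]]
    rw [prod_const, card_univ, Fintype.card_fin]
  rw [e0] at h1
  refine le_trans ?_ h1
  apply Nat.cast_le.2
  apply card_le_card
  intro c hc
  unfold exceptions at hc
  rw [mem_filter, Fintype.mem_piFinset] at hc
  rw [mem_filter, Fintype.mem_piFinset]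
  obtain ⟨hc1, hc2, hc3⟩ := hc
  refine ⟨fun j => ?_, ?_, lt_of_le_of_lt ?_ hc3⟩
  · rw [hgd j]
    exact hc1 j
  · intro l hl
    obtain ⟨n, hn1, hn2⟩ := hc2 l hl
    refine ⟨n, hn1, fun j h => hn2 j ?_⟩
    rw [one_mul, hge j n, add_comm] at h
    exact h
  · apply Nat.cast_le.2
    apply card_le_card
    intro n hn
    unfold Pool.Agent.TH882.KS.SysA at hn
    rw [mem_filter, mem_Ico] at hn
    obtain ⟨⟨hn1, hn2⟩, hn3, hn4⟩ := hn
    unfold Pool.Agent.TH882.IS.IP at hn3
    rw [mem_filter] at hn3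
    unfold arguments
    rw [mem_filter, mem_Icc]
    refine ⟨⟨by omega, by omega⟩, ⟨hn3.2.1, ?_⟩, ?_⟩
    · have hX3 : 3 ≤ x / 3 := by omega
      have hX1 : (2 : ℝ) ≤ (x / 3 : ℕ) := by exact_mod_cast (by omega : 2 ≤ x / 3)
      have hn0 : (0 : ℝ) < n := by exact_mod_cast (by omega : 0 < n)
      have hlog : Real.log n ≤ 2 * Real.log (x / 3 : ℕ) := by
        have h2 : (n : ℝ) ≤ ((x / 3 : ℕ) : ℝ) ^ 2 := by
          have h3 : (n : ℝ) ≤ 2 * (x / 3 : ℕ) := by exact_mod_cast hn2.le
          nlinarith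
        calc Real.log n ≤ Real.log (((x / 3 : ℕ) : ℝ) ^ 2) := Real.log_le_log hn0 h2
          _ = 2 * Real.log (x / 3 : ℕ) := by
            rw [Real.log_pow]
            push_cast
            ring
      have hR : Λ * Real.log n ≤ 2 * Λ * Real.log (x / 3 : ℕ) := by nlinarith
      intro q hq hqn
      rw [abs_le] at hqn
      exact hn3.2.2 q hq (by linarith [hqn.2]) (by linarith [hqn.1])
    · intro j
      have e1 := hn4 j
      rw [hge j, add_comm] at e1
      exact e1

end Pool.Agent.Results.MP_8be758_nt.SystemsAtIsolatedPrimes
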